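import Pool.Agent.Helper72.RA.Defs

/-! # MP_717de3_co: modules GEOA, GEOT, GEOH, GEOC -/

set_option autoImplicit false

namespace Pool.Agent.Helper72.RA

open Real Finset

/-- **GEOA** -/
theorem st_GEOA : ST_GEOA := by
  intro K b p s ρ α n hb hρ hα hαp hp hs hn hnn
  have hsin : ∀ k, 0 < sin (α k) := fun k => sin_pos_of_pos_of_lt_pi (hα k) (hαp k)
  have hkk : ∀ k, p k * p k + s k * s k * n k k = ρ k ^ 2 := by
    intro k
    rw [hnn, hp, hs]
    have := sin_sq_add_cos_sq (α k)
    linear_combination (ρ k ^ 2) * this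
  have hvert : ∀ k, ip (gram b p s n) (some (some k)) none (some (some k)) = ρ k ^ 2 := by
    intro k
    show (p k * p k + s k * s k * n k k) - 0 - 0 + 0 = ρ k ^ 2
    rw [hkk]; ring
  have hC : ip (gram b p s n) (some none) none (some none) = b ^ 2 := by
    show b ^ 2 - 0 - 0 + 0 = b ^ 2
    ring
  refine ⟨fun k => ⟨?_, ?_, ?_⟩, fun i k θ h => ⟨?_, ?_, ?_⟩⟩
  · rw [hvert]; exact pow_pos (hρ k) 2
  · rw [hC]; positivity
  · rw [hvert, hC, sqrt_sq (hρ k).le, sqrt_sq hb.le]
    show b * p k - 0 - 0 + 0 = _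
    rw [hp]; ring
  · rw [hvert]; exact pow_pos (hρ i) 2
  · rw [hvert]; exact pow_pos (hρ k) 2
  · rw [hvert, hvert, sqrt_sq (hρ i).le, sqrt_sq (hρ k).le]
    show (p i * p k + s i * s k * n i k) - 0 - 0 + 0 = _
    have h1 := (hsin i).ne'
    have h2 := (hsin k).ne'
    rw [h, hp, hp, hs, hs]
    field_simp
    ring

/-- **GEOT** -/
theorem st_GEOT : ST_GEOT := by
  intro K b p s n x y rx ry β σ hn hrx hry hβ hβp hσ hσp hxx hyy hxy hr
  have hsσ : 0 < sin σ := sin_pos_of_pos_of_lt_pi hσ hσp
  have hsβ : 0 < sin β := sin_pos_of_pos_of_lt_pi hβ hβp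
  have g0 : ∀ z : Pt K, gram b p s n none z = 0 := fun z => rfl
  have g1 : ∀ z : Pt K, gram b p s n z none = 0 := by
    intro z
    cases z <;> rfl
  have gsym : ∀ z w : Pt K, gram b p s n z w = gram b p s n w z := by
    intro z w
    rcases z with _ | _ | z <;> rcases w with _ | _ | w
    all_goals try rfl
    show p z * p w + s z * s w * n z w = p w * p z + s w * s z * n w z
    rw [hn z w]; ring
  have e1 : ip (gram b p s n) none x none = rx ^ 2 := by
    unfold ip
    rw [g0, g0, g1, hxx]; ring
  have hyx : gram b p s n y x = rx * ry * cos β := by rw [gsym, hxy]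
  have e2 : ip (gram b p s n) y x y = rx ^ 2 + ry ^ 2 - 2 * rx * ry * cos β := by
    unfold ip
    rw [hyy, hyx, hxy, hxx]; ring
  have e3 : ip (gram b p s n) none x y = rx ^ 2 - rx * ry * cos β := by
    unfold ip
    rw [g0, g0, hxy, hxx]; ring
  have h4 : rx - ry * cos β = ry * (cos σ / sin σ) * sin β := by
    rw [div_eq_iff hry.ne'] at hr
    rw [hr]; ring
  have h5 : rx ^ 2 + ry ^ 2 - 2 * rx * ry * cos β = (ry * sin β / sin σ) ^ 2 := by
    have h6 : rx ^ 2 + ry ^ 2 - 2 * rx * ry * cos β = (rx - ry * cos β) ^ 2 +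
        ry ^ 2 * sin β ^ 2 := by
      have := sin_sq_add_cos_sq β
      linear_combination (-ry ^ 2) * this
    rw [h6, h4]
    have := sin_sq_add_cos_sq σ
    have h7 : cos σ ^ 2 = 1 - sin σ ^ 2 := by linarith
    field_simp
    rw [h7]
    ring
  have hpos : 0 < ry * sin β / sin σ := by positivity
  refine ⟨?_, ?_, ?_⟩
  · rw [e1]; positivity
  · rw [e2, h5]; positivity
  · rw [e1, e2, e3, h5, sqrt_sq hrx.le, sqrt_sq hpos.le]
    have h8 : rx ^ 2 - rx * ry * cos β = rx * (rx - ry * cos β) := by ring
    rw [h8, h4]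
    field_simp

/-- **GEOH** -/
theorem st_GEOH : ST_GEOH := by
  intro K b p s n i k j θ hn hnn hsi hsk h1 h2 h
  have hself : ∀ i, ip (gram b p s n) (some (some i)) (some (some j)) (some (some i)) =
      dd p s n i j := by
    intro i
    show (p i * p i + s i * s i * n i i) - (p i * p j + s i * s j * n i j) -
      (p j * p i + s j * s i * n j i) + (p j * p j + s j * s j * n j j) = _
    rw [hnn, hnn, hn j i]
    unfold dd
    ring
  refine ⟨?_, ?_, ?_⟩
  · rw [hself]; exact h1
  · rw [hself]; exact h2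
  · rw [hself, hself]
    show (p i * p k + s i * s k * n i k) - (p i * p j + s i * s j * n i j) -
      (p j * p k + s j * s k * n j k) + (p j * p j + s j * s j * n j j) = _
    rw [hnn, h]
    unfold hubN
    field_simp
    ring

/-- **GEOC** -/
theorem st_GEOC : ST_GEOC := by
  intro K b p s n i k φ hn hnn hsi hsk hpik hpkb hnu
  have habs := abs_lt.1 hnu
  have hP : 0 < p k - p i := by linarith
  have hB : 0 < b - p k := by linarith
  have hdpos : 0 < (p k - p i) ^ 2 + s i ^ 2 + s k ^ 2 - 2 * s i * s k * n i k := by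
    have h1 : 0 < s i * s k := mul_pos hsi hsk
    nlinarith [sq_nonneg (s i - s k), mul_pos h1 (show 0 < 1 - n i k by linarith),
      pow_pos hP 2]
  have e1 : ip (gram b p s n) (some (some i)) (some (some k)) (some (some i)) =
      (p k - p i) ^ 2 + s i ^ 2 + s k ^ 2 - 2 * s i * s k * n i k := by
    show (p i * p i + s i * s i * n i i) - (p i * p k + s i * s k * n i k) -
      (p k * p i + s k * s i * n k i) + (p k * p k + s k * s k * n k k) = _
    rw [hnn, hnn, hn k i]
    ring
  have e1' : ip (gram b p s n) (some (some k)) (some (some i)) (some (some k)) =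
      (p k - p i) ^ 2 + s i ^ 2 + s k ^ 2 - 2 * s i * s k * n i k := by
    show (p k * p k + s k * s k * n k k) - (p k * p i + s k * s i * n k i) -
      (p i * p k + s i * s k * n i k) + (p i * p i + s i * s i * n i i) = _
    rw [hnn, hnn, hn k i]
    ring
  have e2 : ∀ k, ip (gram b p s n) (some none) (some (some k)) (some none) =
      (b - p k) ^ 2 + s k ^ 2 := by
    intro k
    show b ^ 2 - b * p k - b * p k + (p k * p k + s k * s k * n k k) = _
    rw [hnn]
    ring
  have e3 : ip (gram b p s n) (some (some i)) (some (some k)) (some none) =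
      -((p k - p i) * (b - p k) - s k ^ 2 + s i * s k * n i k) := by
    show b * p i - (p i * p k + s i * s k * n i k) - b * p k +
      (p k * p k + s k * s k * n k k) = _
    rw [hnn]
    ring
  have e4 : ip (gram b p s n) (some (some k)) (some (some i)) (some none) =
      (p k - p i) * ((p k - p i) + (b - p k)) + s i ^ 2 - s i * s k * n i k := by
    show b * p k - (p k * p i + s k * s i * n k i) - b * p i +
      (p i * p i + s i * s i * n i i) = _
    rw [hnn, hn k i]
    ring
  constructor
  · intro h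
    unfold CP at h
    refine ⟨?_, ?_, ?_⟩
    · rw [e1]; exact hdpos
    · rw [e2]; positivity
    · rw [e1, e2, e3, h, cos_pi_sub]
      ring
  · intro h
    unfold C0 at h
    have hPB : 0 < b - p i := by linarith
    refine ⟨?_, ?_, ?_⟩
    · rw [e1']; exact hdpos
    · rw [e2]; positivity
    · rw [e1', e2, e4, h]
      have : (p k - p i) + (b - p k) = b - p i := by ring
      rw [this]

end Pool.Agent.Helper72.RA
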